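import Pool.Agent.Work.MP_cfbcde_co.Defs
import Pool.Agent.Work.MP_cfbcde_co.Upper

open Filter Topology

namespace Pool.Agent.Results.MP_cfbcde_co.LkValue

open Pool.Agent.Work.MP_cfbcde_co

/-- For every `k ≥ 1`, `L_k = 1/(4k)`: for every `N ≥ 1` the greatest lower bound of `m(G)/|G|`
over all maximal `k`-degenerate graphs `G` with at least `N` vertices is `1/(4k)`, and in
particular the limit defining `L_k` exists and equals `1/(4k)`. -/
theorem result (k : ℕ) (hk : 1 ≤ k) :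
    (∀ N : ℕ, 1 ≤ N → IsGLB {r : ℝ | ∃ n : ℕ, N ≤ n ∧ ∃ G : SimpleGraph (Fin n),
        IsMaxDegenerate G k ∧ r = optValue G / n} (1 / (4 * k))) ∧
    Tendsto (fun N : ℕ => sInf {r : ℝ | ∃ n : ℕ, N ≤ n ∧ ∃ G : SimpleGraph (Fin n),
        IsMaxDegenerate G k ∧ r = optValue G / n}) atTop (𝓝 (1 / (4 * k))) := by
  have hglb : ∀ N : ℕ, 1 ≤ N → IsGLB {r : ℝ | ∃ n : ℕ, N ≤ n ∧ ∃ G : SimpleGraph (Fin n),
        IsMaxDegenerate G k ∧ r = optValue G / n} (1 / (4 * k)) := by
    intro N hN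
    constructor
    · rintro r ⟨n, hn, G, hG, rfl⟩
      have h1 : 1 ≤ n := hN.trans hn
      have h2 := lower_bound h1 k hk G hG.1
      have h3 : (0 : ℝ) < n := by exact_mod_cast h1
      rw [le_div_iff₀ h3]
      refine le_trans (le_of_eq ?_) h2
      ring
    · intro b hb
      apply le_of_forall_pos_le_add
      intro ε hε
      obtain ⟨n, hn, G, hG, hle⟩ := upper_bound k hk (min ε 1) (by positivity)
        (min_le_right _ _) N
      have h1 := hb ⟨n, hn, G, hG, rfl⟩
      have h2 : min ε 1 ≤ ε := min_le_left _ _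
      linarith
  refine ⟨hglb, ?_⟩
  apply Tendsto.congr' _ tendsto_const_nhds
  filter_upwards [eventually_ge_atTop 1] with N hN
  obtain ⟨n, hn, G, hG, _⟩ := upper_bound k hk 1 one_pos le_rfl N
  exact ((hglb N hN).csInf_eq ⟨_, n, hn, G, hG, rfl⟩).symm

end Pool.Agent.Results.MP_cfbcde_co.LkValue
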